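import Pool.Agent.H97.SDQ.Targets
import Pool.Agent.H99.SD.CNT

set_option autoImplicit false

open Finset Pool.Agent.H97.SD Pool.Agent.H97.SDQ Pool.Agent.H99.SD

namespace Pool.Agent.H99.SDQ

theorem card_small_cnq (V : Type) [Fintype V] [DecidableEq V] (d : ℕ) :
    (univ.filter (fun Q : Finset V => Q.card ≤ d)).card ≤
      ∑ s ∈ range (d + 1), (Fintype.card V).choose s := by
  have h1 : (univ.filter (fun Q : Finset V => Q.card ≤ d))
      ⊆ (range (d + 1)).biUnion (fun s => powersetCard s (univ : Finset V)) := by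
    intro Q hQ
    rw [Finset.mem_biUnion]
    refine ⟨Q.card, Finset.mem_range.2 ?_, ?_⟩
    · have := (Finset.mem_filter.1 hQ).2
      omega
    · rw [Finset.mem_powersetCard]
      exact ⟨Finset.subset_univ _, rfl⟩
  refine (Finset.card_le_card h1).trans (Finset.card_biUnion_le.trans (le_of_eq ?_))
  apply Finset.sum_congr rfl
  intro s _
  rw [Finset.card_powersetCard, Finset.card_univ]

theorem card_small_fun_cnq (V : Type) [Fintype V] [DecidableEq V] (d : ℕ) :
    (univ.filter (fun χ : V → Bool => (univ.filter (fun v => χ v = true)).card ≤ d)).card ≤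
      ∑ s ∈ range (d + 1), (Fintype.card V).choose s := by
  refine le_trans ?_ (card_small_cnq V d)
  apply Finset.card_le_card_of_injOn (fun χ : V → Bool => univ.filter (fun v => χ v = true))
  · intro χ hχ
    simpa using hχ
  · intro χ _ χ' _ h
    funext v
    have h2 : v ∈ univ.filter (fun v => χ v = true) ↔ v ∈ univ.filter (fun v => χ' v = true) := by
      have h3 : univ.filter (fun v => χ v = true) = univ.filter (fun v => χ' v = true) := h
      rw [h3]
    simp only [Finset.mem_filter, Finset.mem_univ, true_and] at h2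
    cases h3 : χ v <;> cases h4 : χ' v <;> simp_all

theorem agree_cnq {N a b : ℕ} (line : ℕ → Clause (BV N a b)) (τ : ℕ → ℕ × Finset (BV N a b))
    (t : ℕ) (O : Finset (Fin N)) (χ α α' : BV N a b → Bool) (hE : EvenA α) (hE' : EvenA α')
    (hC : CompQ α χ line τ t O) (hC' : CompQ α' χ line τ t O)
    (h : ∀ v : BV N a b, v.1 ∉ UQ line τ t \ O → α v = α' v) : α = α' := by
  funext v
  by_cases hv : v.1 ∈ UQ line τ t \ O
  swap
  · exact h v hv
  obtain ⟨j, g, i₀⟩ := v
  simp only [Finset.mem_sdiff] at hv
  obtain ⟨hv, hO⟩ := hv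
  unfold UQ at hv
  rw [Finset.mem_biUnion] at hv
  obtain ⟨s, hs, hj⟩ := hv
  have hs' : s ≤ t := by
    have := Finset.mem_range.1 hs
    omega
  have key : ∀ u : Fin a × Fin b, (j, u) ∈ vq (line (τ s).1) (τ s).2 →
      α (j, u) = α' (j, u) := by
    intro u hu
    unfold vq at hu
    rcases Finset.mem_union.1 hu with hu | hu
    · obtain ⟨l, hl, hl1⟩ := Finset.mem_image.1 hu
      have e1 := (hC s hs').1 l hl (by rw [hl1]; exact hO)
      have e2 := (hC' s hs').1 l hl (by rw [hl1]; exact hO)
      rw [hl1] at e1 e2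
      cases h1 : α (j, u) <;> cases h2 : α' (j, u) <;> cases h3 : l.2 <;> simp_all
    · rw [(hC s hs').2 (j, u) hu hO, (hC' s hs').2 (j, u) hu hO]
  by_contra hne
  have hmiss : (j, g, i₀) ∉ vq (line (τ s).1) (τ s).2 := fun h' => hne (key _ h')
  have hcard := (Finset.mem_filter.1 hj).2
  have hoth : ∀ i', i' ≠ i₀ → α (j, g, i') = α' (j, g, i') := by
    intro i' hi'
    apply key
    by_contra hcon
    have := (Finset.card_le_one.1 hcard) (g, i₀)
      (Finset.mem_filter.2 ⟨Finset.mem_univ _, hmiss⟩) (g, i')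
      (Finset.mem_filter.2 ⟨Finset.mem_univ _, hcon⟩)
    exact hi' (by simpa using (Prod.ext_iff.1 this).2.symm)
  have q1 := hE j g
  have q2 := hE' j g
  cases h1 : α (j, g, i₀) <;> cases h2 : α' (j, g, i₀)
  · exact hne (by rw [h1, h2])
  · have := par_flip_cnt α' α j g i₀ (fun i' hi' => (hoth i' hi').symm) h2 h1
    rw [this] at q2
    exact (Nat.not_even_iff_odd.2 (Even.add_one q1)) q2
  · have := par_flip_cnt α α' j g i₀ hoth h1 h2
    rw [this] at q1
    exact (Nat.not_even_iff_odd.2 (Even.add_one q2)) q1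
  · exact hne (by rw [h1, h2])

theorem fibre_cnq {N a b : ℕ} (line : ℕ → Clause (BV N a b)) (τ : ℕ → ℕ × Finset (BV N a b))
    (t : ℕ) (O : Finset (Fin N)) (χ : BV N a b → Bool) (f g : ℕ)
    (hO : O.card ≤ f) (hU : N ≤ (UQ line τ t ∪ O).card + g)
    (S : Finset (BV N a b → Bool)) (hS : ∀ α ∈ S, EvenA α ∧ CompQ α χ line τ t O) :
    S.card ≤ 2 ^ (a * b * (g + f)) := by
  classical
  set U := UQ line τ t \ O with hUdef
  have h1 : S.card ≤ (univ : Finset ({v : BV N a b // v.1 ∉ U} → Bool)).card := by
    apply Finset.card_le_card_of_injOn (fun α => fun v => α v.1)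
    · intro α _
      simp
    · intro α hα α' hα' hEq
      have s1 := hS α hα
      have s2 := hS α' hα'
      apply agree_cnq line τ t O χ α α' s1.1 s2.1 s1.2 s2.2
      intro v hv
      exact congrFun hEq ⟨v, hv⟩
  refine h1.trans ?_
  rw [Finset.card_univ, Fintype.card_fun, Fintype.card_bool]
  apply Nat.pow_le_pow_right (by norm_num)
  rw [Fintype.card_subtype]
  have h2 : (univ.filter (fun v : BV N a b => v.1 ∉ U))
      = (univ.filter (fun j : Fin N => j ∉ U)) ×ˢ (univ : Finset (Fin a × Fin b)) := by
    ext v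
    simp
  rw [h2, Finset.card_product, Finset.card_univ, Fintype.card_prod, Fintype.card_fin,
    Fintype.card_fin]
  have h3 : (univ.filter (fun j : Fin N => j ∉ U)).card = N - U.card := by
    have : (univ.filter (fun j : Fin N => j ∉ U)) = Uᶜ := by
      ext j
      simp
    rw [this, Finset.card_compl, Fintype.card_fin]
  rw [h3]
  have h4 : (UQ line τ t ∪ O).card ≤ U.card + O.card := by
    have : UQ line τ t ∪ O = U ∪ O := by
      rw [hUdef]
      ext j
      simp only [Finset.mem_union, Finset.mem_sdiff]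
      tauto
    rw [this]
    exact Finset.card_union_le _ _
  have h5 : N - U.card ≤ g + f := by omega
  calc (N - U.card) * (a * b) ≤ (g + f) * (a * b) := Nat.mul_le_mul_right _ h5
    _ = a * b * (g + f) := by ring

theorem pf_CNQ (hPAT : P_PAT) (hTRC : P_TRC) : P_CNQ := by
  classical
  intro N a b L f g d S line rule hb hmain
  choose! i Q χ β γ t O hiS hQd htL hχd hOf hComp hUB using hmain
  set E := univ.filter (fun z : BV N a b → Bool => EvenA z) with hE
  rw [← card_even_cnt hPAT N a b hb, ← hE]
  let ext : (Fin L → Bool) → ℕ → Bool := fun β' n => if h : n < L then β' ⟨n, h⟩ else false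
  let code : (BV N a b → Bool) → ℕ × Finset (BV N a b) × (BV N a b → Bool) × (Fin L → Bool) ×
      (Fin L → Bool) × Fin (L + 1) × Finset (Fin N) :=
    fun α => (i α, Q α, χ α, fun n => β α n.1, fun n => γ α n.1, ⟨min (t α) L, by omega⟩, O α)
  set T : Finset (ℕ × Finset (BV N a b) × (BV N a b → Bool) × (Fin L → Bool) ×
      (Fin L → Bool) × Fin (L + 1) × Finset (Fin N)) :=
    (range S) ×ˢ ((univ.filter (fun Q : Finset (BV N a b) => Q.card ≤ d)) ×ˢ
      ((univ.filter (fun χ : BV N a b → Bool => (univ.filter (fun v => χ v = true)).card ≤ d)) ×ˢ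
      ((univ : Finset (Fin L → Bool)) ×ˢ ((univ : Finset (Fin L → Bool)) ×ˢ
      ((univ : Finset (Fin (L + 1))) ×ˢ (univ : Finset (Finset (Fin N)))))))) with hT
  have hTcard : T.card ≤ S * (∑ s ∈ range (d + 1), (N * a * b).choose s) ^ 2 *
      (2 ^ L * 2 ^ L * (L + 1)) * 2 ^ N := by
    have c0 : Fintype.card (BV N a b) = N * a * b := by
      rw [Fintype.card_prod, Fintype.card_prod, Fintype.card_fin, Fintype.card_fin,
        Fintype.card_fin, mul_assoc]
    have c1 := card_small_cnq (BV N a b) d
    have c2 := card_small_fun_cnq (BV N a b) d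
    rw [c0] at c1 c2
    rw [hT, Finset.card_product, Finset.card_product, Finset.card_product, Finset.card_product,
      Finset.card_product, Finset.card_product, Finset.card_range]
    rw [Finset.card_univ, Finset.card_univ, Finset.card_univ, Fintype.card_fun,
      Fintype.card_bool, Fintype.card_fin, Fintype.card_fin, Fintype.card_finset,
      Fintype.card_fin]
    refine (Nat.mul_le_mul_left S (Nat.mul_le_mul c1 (Nat.mul_le_mul_right _ c2))).trans
      (le_of_eq ?_)
    ring
  have hbound := Finset.card_le_mul_card_image_of_maps_to (f := code) (s := E)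
    (t := T) ?_ (2 ^ (a * b * (g + f))) ?_
  · refine hbound.trans ?_
    rw [mul_comm]
    exact Nat.mul_le_mul_right _ hTcard
  · intro α hα
    have hα' : EvenA α := (Finset.mem_filter.1 hα).2
    simp only [hT, Finset.mem_product, Finset.mem_univ, and_true, code, Finset.mem_range,
      Finset.mem_filter, true_and]
    exact ⟨hiS α hα', hQd α hα', hχd α hα'⟩
  · intro c _
    by_cases hne : (E.filter (fun α => code α = c)).Nonempty
    swap
    · rw [Finset.not_nonempty_iff_eq_empty] at hne
      rw [hne]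
      simp
    obtain ⟨α₀, hα₀⟩ := hne
    obtain ⟨hα₀E, hα₀c⟩ := Finset.mem_filter.1 hα₀
    obtain ⟨i', Q', χ', β', γ', t', O'⟩ := c
    have hall : ∀ α, α ∈ E → code α = (i', Q', χ', β', γ', t', O') → EvenA α ∧ O'.card ≤ f ∧
        CompQ α χ' line (trj rule S χ' (i', Q') (ext β') (ext γ')) t'.1 O' ∧
        N ≤ (UQ line (trj rule S χ' (i', Q') (ext β') (ext γ')) t'.1 ∪ O').card + g := by
      intro α hα hc
      have hα' : EvenA α := (Finset.mem_filter.1 hα).2
      have hi : min (t α) L = t α := min_eq_left (htL α hα')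
      simp only [code, Prod.mk.injEq] at hc
      obtain ⟨e1, e2, e3, e4, e5, e6, e7⟩ := hc
      have e6' : t'.1 = t α := by rw [← e6]; exact hi
      subst e1 e2 e3 e4 e5 e7
      rw [e6']
      have hpth : ∀ s, s ≤ t α → trj rule S (χ α) (i α, Q α) (ext (fun n => β α n.1))
          (ext (fun n => γ α n.1)) s = trj rule S (χ α) (i α, Q α) (β α) (γ α) s := by
        intro s hs
        refine (hTRC (BV N a b) rule S (t α) (χ α) (χ α) (i α, Q α) (β α)
          (ext (fun n => β α n.1)) (γ α) (ext (fun n => γ α n.1)) ?_ (fun _ _ => rfl) s hs).1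
        intro s' hs'
        have htL' : s' < L := lt_of_lt_of_le hs' (htL α hα')
        simp only [ext, htL', dif_pos, and_self]
      refine ⟨hα', hOf α hα', ?_, ?_⟩
      · intro s hs
        rw [hpth s hs]
        exact hComp α hα' s hs
      · have : UQ line (trj rule S (χ α) (i α, Q α) (ext (fun n => β α n.1))
            (ext (fun n => γ α n.1))) (t α)
            = UQ line (trj rule S (χ α) (i α, Q α) (β α) (γ α)) (t α) := by
          unfold UQ
          apply Finset.biUnion_congr rfl
          intro s hs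
          rw [hpth s (by have := Finset.mem_range.1 hs; omega)]
        rw [this]
        exact hUB α hα'
    have h0 := hall α₀ hα₀E hα₀c
    apply fibre_cnq line (trj rule S χ' (i', Q') (ext β') (ext γ')) t'.1 O' χ' f g
      h0.2.1 h0.2.2.2
    intro α hα
    obtain ⟨hαE, hαc⟩ := Finset.mem_filter.1 hα
    have := hall α hαE hαc
    exact ⟨this.1, this.2.2.1⟩

end Pool.Agent.H99.SDQ
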