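import Pool.Agent.H97.SDQ.Targets

set_option autoImplicit false

open Finset Pool.Agent.H97.SD Pool.Agent.H97.SDQ

namespace Pool.Agent.H99.SDQ

theorem pf_FLQ : P_FLQ := by
  classical
  intro N a b C' W W' v₀ α x O Z hW' hCW hF hO hZO hZW
  have hex : ∀ j ∈ Z, ∃ u : Fin a × Fin b, (j, u) ∉ W ∧ u ≠ v₀.2 := by
    intro j hj
    have hj' : j ∉ Hq W := Finset.disjoint_left.1 hZW hj
    have hcard : 1 < (univ.filter (fun u : Fin a × Fin b => (j, u) ∉ W)).card := by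
      by_contra hcon
      exact hj' (Finset.mem_filter.2 ⟨Finset.mem_univ _, not_lt.1 hcon⟩)
    obtain ⟨u, hu, hne⟩ := Finset.exists_mem_ne hcard v₀.2
    exact ⟨u, (Finset.mem_filter.1 hu).2, hne⟩
  have hne0 : Nonempty (Fin a × Fin b) := ⟨v₀.2⟩
  choose! U hU1 hU2 using hex
  have hnot : ∀ u ∈ W', ¬ (u.1 ∈ Z ∧ u.2 = U u.1) := by
    rintro u hu ⟨h1, h2⟩
    rcases Finset.mem_insert.1 (hW' hu) with h3 | h3
    · rw [h3] at h1 h2
      exact hU2 _ h1 h2.symm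
    · apply hU1 _ h1
      rw [← h2]
      exact h3
  refine ⟨fun v => if v.1 ∈ Z ∧ v.2 = U v.1 then !(x v) else x v, ⟨?_, ?_⟩, ?_, ?_⟩
  · intro v hv
    have h1 : v.1 ∉ O := fun h => hv (Finset.mem_union_left _ h)
    have h2 : v.1 ∉ Z := fun h => hv (Finset.mem_union_right _ h)
    have h3 : ¬ (v.1 ∈ Z ∧ v.2 = U v.1) := fun h => h2 h.1
    show (if v.1 ∈ Z ∧ v.2 = U v.1 then !(x v) else x v) = α v
    rw [if_neg h3]
    exact hO.1 v h1
  · intro j hj
    by_cases hjZ : j ∈ Z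
    · have hjO : j ∉ O := Finset.disjoint_left.1 hZO hjZ
      refine ⟨U j, ?_, ?_⟩
      · show (if j ∈ Z ∧ U j = U j then !(x (j, U j)) else x (j, U j)) ≠ α (j, U j)
        rw [if_pos ⟨hjZ, rfl⟩, hO.1 (j, U j) hjO]
        cases α (j, U j) <;> simp
      · intro u' hu'
        show (if j ∈ Z ∧ u' = U j then !(x (j, u')) else x (j, u')) = α (j, u')
        rw [if_neg (fun h => hu' h.2)]
        exact hO.1 (j, u') hjO
    · have hjO : j ∈ O := (Finset.mem_union.1 hj).resolve_right hjZ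
      obtain ⟨u, hu1, hu2⟩ := hO.2 j hjO
      refine ⟨u, ?_, ?_⟩
      · show (if j ∈ Z ∧ u = U j then !(x (j, u)) else x (j, u)) ≠ α (j, u)
        rw [if_neg (fun h => hjZ h.1)]
        exact hu1
      · intro u' hu'
        show (if j ∈ Z ∧ u' = U j then !(x (j, u')) else x (j, u')) = α (j, u')
        rw [if_neg (fun h => hjZ h.1)]
        exact hu2 u' hu'
  · intro l' hl'
    have h1 : l'.1 ∈ W' := hCW (Finset.mem_image.2 ⟨l', hl', rfl⟩)
    show (if l'.1.1 ∈ Z ∧ l'.1.2 = U l'.1.1 then !(x l'.1) else x l'.1) ≠ l'.2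
    rw [if_neg (hnot _ h1)]
    exact hF l' hl'
  · intro u hu
    show (if u.1 ∈ Z ∧ u.2 = U u.1 then !(x u) else x u) = x u
    rw [if_neg (hnot u hu)]

end Pool.Agent.H99.SDQ
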